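import Mathlib
import Pool.Agent.MP_025f5d_nt.Defs
import Pool.Agent.MP_025f5d_nt.Mg.Q44_BlockF

namespace Pool.Agent.Results.MP_025f5d_nt.Q1Complete

open Pool.Agent.MP_025f5d_nt

/-- Q1: part (a) holds for every admissible prime, the value of S_2 modulo p^2 is determined,
part (b) as printed fails for every admissible prime, and admissible primes exist. -/
theorem result :
    (∀ (p : ℕ) (x y : ℤ), p.Prime → 3 < p → (p % 8 = 1 ∨ p % 8 = 3) →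
      (p : ℤ) = x ^ 2 + 2 * y ^ 2 → (x % 8 = 1 ∨ x % 8 = 3) →
      (p % 8 = 1 → CongSq p (S1 p) 0 ∧
        CongSq p (S2 p) ((-1 : ℚ) ^ ((x + 1) / 2) / 2 * (x - p / (2 * x)))) ∧
      (p % 8 = 3 → CongSq p (S1 p) ((-1 : ℚ) ^ ((p - 3) / 8) * (p / (2 * x) - 2 * x)) ∧
        CongSq p (S2 p) ((-1 : ℚ) ^ ((x + 1) / 2) / 2 * (x + 3 * p / (2 * x)))) ∧
      ¬ CongSq p (S2 p) ((-1 : ℚ) ^ ((x + 1) / 2) / 2 * (x + p / (2 * x)))) ∧
    ∃ (p : ℕ) (x y : ℤ), p.Prime ∧ 3 < p ∧ (p % 8 = 1 ∨ p % 8 = 3) ∧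
      (p : ℤ) = x ^ 2 + 2 * y ^ 2 ∧ (x % 8 = 1 ∨ x % 8 = 3) :=
  ⟨fun p x y hp h3 h8 hxy hx => ⟨(Q44.q1_main p x y hp h3 hxy hx).1,
    (Q44.q1_main p x y hp h3 hxy hx).2, Q44.printed_fails p x y hp h3 h8 hxy hx⟩,
    11, 3, 1, by norm_num, by norm_num, by norm_num, by norm_num, by norm_num⟩

end Pool.Agent.Results.MP_025f5d_nt.Q1Complete
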